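import Pool.Agent.Q35.ST.Stm2
import Pool.Agent.Y200.CB.Der

/-! Job JAC of project ST of helper35. -/

set_option autoImplicit false

namespace Pool.Agent.Q151.ST

open MvPolynomial Pool.Agent.Q35.ST

section deg

variable {σ k : Type} [Field k] [CharZero k]

theorem exists_pderiv_ne (F : MvPolynomial σ k) (hF : ∀ c, F ≠ C c) : ∃ s, pderiv s F ≠ 0 := by
  classical
  by_contra hcon
  push Not at hcon
  apply hF (coeff 0 F)
  ext m
  rw [coeff_C]
  by_cases hm : 0 = m
  · rw [if_pos hm, ← hm]
  · rw [if_neg hm]
    obtain ⟨s, hs⟩ : ∃ s, m s ≠ 0 := by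
      by_contra hc
      push Not at hc
      exact hm (Finsupp.ext fun s => (hc s).symm)
    have h1 := congrArg (coeff (m - Finsupp.single s 1)) (hcon s)
    rw [coeff_pderiv, coeff_zero] at h1
    have h2 : m - Finsupp.single s 1 + Finsupp.single s 1 = m := by
      apply tsub_add_cancel_of_le
      rw [Finsupp.single_le_iff]
      omega
    rw [h2] at h1
    rcases mul_eq_zero.mp h1 with h | h
    · exact h
    · exfalso
      have h3 : ((((m - Finsupp.single s 1 : σ →₀ ℕ) s + 1 : ℕ)) : k) = 0 := by
        push_cast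
        exact h
      have := Nat.cast_eq_zero.mp h3
      omega

theorem degreeOf_pderiv_lt (F : MvPolynomial σ k) (s : σ) (h : pderiv s F ≠ 0) :
    degreeOf s (pderiv s F) < degreeOf s F := by
  classical
  have h0 : 0 < degreeOf s F := by
    by_contra hc
    apply h
    apply pderiv_eq_zero_of_notMem_vars
    intro hv
    rw [mem_vars_iff_mem_support] at hv
    obtain ⟨d, hd, hs⟩ := hv
    have h1 := monomial_le_degreeOf s hd
    have h2 := Finsupp.mem_support_iff.mp hs
    omega
  rw [degreeOf_lt_iff h0]
  intro m hm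
  rw [mem_support_iff, coeff_pderiv] at hm
  have h1 : coeff (m + Finsupp.single s 1) F ≠ 0 := left_ne_zero_of_mul hm
  have h2 := monomial_le_degreeOf s (mem_support_iff.mpr h1)
  rw [Finsupp.add_apply, Finsupp.single_eq_same] at h2
  omega

theorem not_dvd_pderiv (F : MvPolynomial σ k) (s : σ) (h : pderiv s F ≠ 0) : ¬ F ∣ pderiv s F := by
  rintro ⟨Q, hQ⟩
  have hQ0 : Q ≠ 0 := by
    rintro rfl
    rw [mul_zero] at hQ
    exact h hQ
  have hF0 : F ≠ 0 := by
    rintro rfl
    exact h (map_zero _)
  have h1 := degreeOf_pderiv_lt F s h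
  rw [hQ, degreeOf_mul_eq hF0 hQ0] at h1
  omega

end deg

theorem jac : S_JAC := by
  classical
  intro σ τ k _ _ _ _ Ψ F hF hdvd h hh
  -- the polynomial is not constant
  have hF1 : aeval Ψ F = 0 := (hdvd F).mpr dvd_rfl
  have hconst : ∀ c, F ≠ C c := by
    rintro c rfl
    rw [aeval_C] at hF1
    have hc : c = 0 := by
      have := (MvPolynomial.C_injective τ k) (a₁ := c) (a₂ := 0) (by rw [C_0]; exact hF1)
      exact this
    rw [hc, C_0] at hF
    exact hF rfl
  obtain ⟨s0, hs0⟩ := exists_pderiv_ne F hconst
  set f0 := aeval Ψ (pderiv s0 F) with hf0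
  have hf0' : f0 ≠ 0 := fun hz => not_dvd_pderiv F s0 hs0 ((hdvd _).mp hz)
  have hdeg : 0 < degreeOf s0 F := lt_of_le_of_lt (Nat.zero_le _) (degreeOf_pderiv_lt F s0 hs0)
  -- the field
  let M := FractionRing (MvPolynomial τ k)
  have hinj : Function.Injective (algebraMap (MvPolynomial τ k) M) := IsFractionRing.injective _ _
  -- algebraic independence
  let e := Fintype.equivFin {s : σ // s ≠ s0}
  let t : Fin (Fintype.card {s : σ // s ≠ s0}) → M := fun i => algebraMap (MvPolynomial τ k) M (Ψ (e.symm i).1)
  have hind : AlgebraicIndependent k t := by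
    rw [algebraicIndependent_iff]
    intro G hG
    let G' : MvPolynomial σ k := rename (fun i => (e.symm i).1) G
    have h1 : aeval Ψ G' = 0 := by
      apply hinj
      rw [map_zero]
      have h2 : (algebraMap (MvPolynomial τ k) M) (aeval Ψ G') = aeval t G := by
        show (algebraMap (MvPolynomial τ k) M) (aeval Ψ (rename (fun i => (e.symm i).1) G)) = _
        rw [aeval_rename]
        have h3 := MvPolynomial.map_aeval (Ψ ∘ fun i => (e.symm i).1)
          (algebraMap (MvPolynomial τ k) M) G
        rw [h3]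
        rfl
      rw [h2, hG]
    obtain ⟨Q, hQ⟩ := (hdvd G').mp h1
    have hG' : degreeOf s0 G' = 0 := by
      rw [← Nat.le_zero, degreeOf_le_iff]
      intro m hm
      rw [mem_support_iff] at hm
      obtain ⟨u, hu, -⟩ := coeff_rename_ne_zero _ _ _ hm
      rw [← hu, Nat.le_zero]
      apply Finsupp.mapDomain_of_notMem_range
      rintro ⟨i, hi⟩
      exact (e.symm i).2 hi
    by_contra hG0
    have hG'0 : G' ≠ 0 := by
      intro hz
      apply hG0
      have hinj2 : Function.Injective (fun i => (e.symm i).1) :=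
        Subtype.val_injective.comp e.symm.injective
      exact rename_injective _ hinj2 (by rw [map_zero]; exact hz)
    have hQ0 : Q ≠ 0 := by
      rintro rfl
      rw [mul_zero] at hQ
      exact hG'0 hQ
    rw [hQ, degreeOf_mul_eq hF hQ0] at hG'
    omega
  -- the derivations
  have hder : ∀ s1 : {s : σ // s ≠ s0}, ∃ (δ : MvPolynomial τ k) (u : τ → MvPolynomial τ k),
      δ ≠ 0 ∧ (∀ s, s ≠ s0 → ∑ a, pderiv a (Ψ s) * u a = if s = s1.1 then δ else 0) ∧
      f0 * ∑ a, pderiv a (Ψ s0) * u a = -(δ * aeval Ψ (pderiv s1.1 F)) := by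
    intro s1
    obtain ⟨D, hD⟩ := Pool.Agent.Y200.CB.exists_der t hind (fun i => if e.symm i = s1 then 1 else 0)
    have hD1 : ∀ s, s ≠ s0 → D (algebraMap (MvPolynomial τ k) M (Ψ s)) = if s = s1.1 then 1 else 0 := by
      intro s hs
      have h1 := hD (e ⟨s, hs⟩)
      have h2 : t (e ⟨s, hs⟩) = algebraMap (MvPolynomial τ k) M (Ψ s) := by
        show algebraMap (MvPolynomial τ k) M (Ψ (e.symm (e ⟨s, hs⟩)).1) = _
        rw [Equiv.symm_apply_apply]
      rw [h2, Equiv.symm_apply_apply] at h1
      rw [h1]
      by_cases hss : s = s1.1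
      · rw [if_pos hss, if_pos (Subtype.ext hss)]
      · rw [if_neg hss, if_neg (fun h => hss (congrArg Subtype.val h))]
    -- the chain rules
    have hch : ∀ P : MvPolynomial τ k, D (algebraMap (MvPolynomial τ k) M P) =
        ∑ a, algebraMap (MvPolynomial τ k) M (pderiv a P) * D (algebraMap (MvPolynomial τ k) M (X a)) := by
      intro P
      induction P using MvPolynomial.induction_on with
      | C r =>
        have h1 : algebraMap (MvPolynomial τ k) M (C r) = algebraMap k M r := by
          rw [IsScalarTower.algebraMap_apply k (MvPolynomial τ k) M]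
          rfl
        rw [h1, D.map_algebraMap]
        symm
        apply Finset.sum_eq_zero
        intro a _
        rw [pderiv_C, map_zero, zero_mul]
      | add p q hp hq =>
        rw [map_add, map_add, hp, hq, ← Finset.sum_add_distrib]
        refine Finset.sum_congr rfl fun a _ => ?_
        rw [map_add, map_add, add_mul]
      | mul_X p i hp =>
        rw [map_mul, D.leibniz, hp, smul_eq_mul, smul_eq_mul, Finset.mul_sum]
        have h1 : ∀ a, algebraMap (MvPolynomial τ k) M (pderiv a (p * X i)) *
            D (algebraMap (MvPolynomial τ k) M (X a)) = algebraMap (MvPolynomial τ k) M (X i) *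
              (algebraMap (MvPolynomial τ k) M (pderiv a p) * D (algebraMap (MvPolynomial τ k) M (X a))) +
              (if i = a then algebraMap (MvPolynomial τ k) M p * D (algebraMap (MvPolynomial τ k) M (X a)) else 0) := by
          intro a
          rw [(pderiv a).leibniz, smul_eq_mul, smul_eq_mul, pderiv_X, map_add, map_mul, map_mul]
          by_cases hia : i = a
          · subst hia
            rw [if_pos rfl, Pi.single_eq_same, map_one]
            ring
          · rw [if_neg hia, Pi.single_eq_of_ne hia, map_zero]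
            ring
        rw [Finset.sum_congr rfl fun a _ => h1 a, Finset.sum_add_distrib,
          Finset.sum_ite_eq, if_pos (Finset.mem_univ _)]
        ring
    have hch2 : ∀ G : MvPolynomial σ k, D (algebraMap (MvPolynomial τ k) M (aeval Ψ G)) =
        ∑ s, algebraMap (MvPolynomial τ k) M (aeval Ψ (pderiv s G)) * D (algebraMap (MvPolynomial τ k) M (Ψ s)) := by
      intro P
      induction P using MvPolynomial.induction_on with
      | C r =>
        have h1 : algebraMap (MvPolynomial τ k) M (aeval Ψ (C r)) = algebraMap k M r := by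
          rw [aeval_C, ← IsScalarTower.algebraMap_apply k (MvPolynomial τ k) M]
        rw [h1, D.map_algebraMap]
        symm
        apply Finset.sum_eq_zero
        intro a _
        rw [pderiv_C, map_zero, map_zero, zero_mul]
      | add p q hp hq =>
        rw [map_add, map_add, map_add, hp, hq, ← Finset.sum_add_distrib]
        refine Finset.sum_congr rfl fun a _ => ?_
        rw [map_add, map_add, map_add, add_mul]
      | mul_X p i hp =>
        rw [map_mul, map_mul, D.leibniz, hp, smul_eq_mul, smul_eq_mul, Finset.mul_sum, aeval_X]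
        have h1 : ∀ a, algebraMap (MvPolynomial τ k) M (aeval Ψ (pderiv a (p * X i))) *
            D (algebraMap (MvPolynomial τ k) M (Ψ a)) = algebraMap (MvPolynomial τ k) M (Ψ i) *
              (algebraMap (MvPolynomial τ k) M (aeval Ψ (pderiv a p)) * D (algebraMap (MvPolynomial τ k) M (Ψ a))) +
              (if i = a then algebraMap (MvPolynomial τ k) M (aeval Ψ p) * D (algebraMap (MvPolynomial τ k) M (Ψ a)) else 0) := by
          intro a
          rw [(pderiv a).leibniz, smul_eq_mul, smul_eq_mul, pderiv_X, map_add, map_mul, map_mul,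
            map_add, map_mul, map_mul, aeval_X]
          by_cases hia : i = a
          · subst hia
            rw [if_pos rfl, Pi.single_eq_same, map_one, map_one]
            ring
          · rw [if_neg hia, Pi.single_eq_of_ne hia, map_zero, map_zero]
            ring
        rw [Finset.sum_congr rfl fun a _ => h1 a, Finset.sum_add_distrib,
          Finset.sum_ite_eq, if_pos (Finset.mem_univ _)]
        ring
    -- clear denominators
    obtain ⟨b, hb⟩ := IsLocalization.exist_integer_multiples_of_finset
      (nonZeroDivisors (MvPolynomial τ k))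
      (Finset.univ.image fun a => D (algebraMap (MvPolynomial τ k) M (X a)))
    have hb' : ∀ a, ∃ u : MvPolynomial τ k, algebraMap (MvPolynomial τ k) M u =
        algebraMap (MvPolynomial τ k) M b.1 * D (algebraMap (MvPolynomial τ k) M (X a)) := by
      intro a
      obtain ⟨u, hu⟩ := hb _ (Finset.mem_image_of_mem _ (Finset.mem_univ a))
      exact ⟨u, by rw [hu, Algebra.smul_def]⟩
    choose u hu using hb'
    have hsum : ∀ s, algebraMap (MvPolynomial τ k) M (∑ a, pderiv a (Ψ s) * u a) =
        algebraMap (MvPolynomial τ k) M b.1 * D (algebraMap (MvPolynomial τ k) M (Ψ s)) := by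
      intro s
      rw [hch, map_sum, Finset.mul_sum]
      refine Finset.sum_congr rfl fun a _ => ?_
      rw [map_mul, hu]
      ring
    refine ⟨b.1, u, nonZeroDivisors.ne_zero b.2, ?_, ?_⟩
    · intro s hs
      apply hinj
      rw [hsum, hD1 s hs]
      by_cases hss : s = s1.1
      · rw [if_pos hss, if_pos hss, mul_one]
      · rw [if_neg hss, if_neg hss, mul_zero, map_zero]
    · apply hinj
      rw [map_mul, hsum, map_neg, map_mul]
      have h1 := hch2 F
      rw [hF1, map_zero, map_zero, ← Finset.add_sum_erase _ _ (Finset.mem_univ s0)] at h1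
      have h2 : ∑ s ∈ Finset.univ.erase s0, algebraMap (MvPolynomial τ k) M (aeval Ψ (pderiv s F)) *
          D (algebraMap (MvPolynomial τ k) M (Ψ s)) = algebraMap (MvPolynomial τ k) M (aeval Ψ (pderiv s1.1 F)) := by
        rw [Finset.sum_eq_single s1.1]
        · rw [hD1 s1.1 s1.2, if_pos rfl, mul_one]
        · intro s hs hne
          rw [hD1 s (Finset.ne_of_mem_erase hs), if_neg hne, mul_zero]
        · intro hn
          exact absurd (Finset.mem_erase.mpr ⟨s1.2, Finset.mem_univ _⟩) hn
      rw [h2] at h1
      linear_combination -(algebraMap (MvPolynomial τ k) M b.1) * h1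
  choose δ u hδ hu1 hu2 using hder
  -- the point
  have hprod : h * f0 * ∏ s1, δ s1 ≠ 0 :=
    mul_ne_zero (mul_ne_zero hh hf0') (Finset.prod_ne_zero_iff.mpr fun s _ => hδ s)
  obtain ⟨p, hp⟩ : ∃ p : τ → k, eval p (h * f0 * ∏ s1, δ s1) ≠ 0 := by
    by_contra hc
    push Not at hc
    apply hprod
    apply MvPolynomial.funext
    intro x
    rw [hc x, map_zero]
  rw [map_mul, map_mul, map_prod] at hp
  have hp1 : eval p h ≠ 0 := left_ne_zero_of_mul (left_ne_zero_of_mul hp)
  have hp2 : eval p f0 ≠ 0 := right_ne_zero_of_mul (left_ne_zero_of_mul hp)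
  have hp3 : ∀ s1, eval p (δ s1) ≠ 0 := fun s1 =>
    (Finset.prod_ne_zero_iff.mp (right_ne_zero_of_mul hp)) s1 (Finset.mem_univ _)
  have hev : ∀ G : MvPolynomial σ k, eval p (aeval Ψ G) = eval (fun s => eval p (Ψ s)) G := by
    intro G
    have h1 := MvPolynomial.map_aeval Ψ (eval p) G
    rw [h1]
    have h2 : (eval p).comp (algebraMap k (MvPolynomial τ k)) = RingHom.id k := by
      ext r
      exact eval_C r
    rw [h2]
    rfl
  refine ⟨p, hp1, ⟨s0, by rw [← hev]; exact hp2⟩, fun t' ht' => ?_⟩
  refine ⟨fun a => ∑ s1 : {s : σ // s ≠ s0}, t' s1.1 * (eval p (u s1 a) / eval p (δ s1)), ?_⟩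
  have hswap : ∀ s, ∑ a, eval p (pderiv a (Ψ s)) *
      ∑ s1 : {s : σ // s ≠ s0}, t' s1.1 * (eval p (u s1 a) / eval p (δ s1)) =
      ∑ s1 : {s : σ // s ≠ s0}, t' s1.1 / eval p (δ s1) *
        eval p (∑ a, pderiv a (Ψ s) * u s1 a) := by
    intro s
    simp only [Finset.mul_sum]
    rw [Finset.sum_comm]
    refine Finset.sum_congr rfl fun s1 _ => ?_
    rw [map_sum, Finset.mul_sum]
    refine Finset.sum_congr rfl fun a _ => ?_
    rw [map_mul]
    field_simp
  intro s
  rw [hswap]
  by_cases hs : s = s0
  · subst hs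
    apply mul_left_cancel₀ hp2
    rw [Finset.mul_sum]
    have h1 : ∀ s1 : {s' : σ // s' ≠ s}, eval p f0 * (t' s1.1 / eval p (δ s1) *
        eval p (∑ a, pderiv a (Ψ s) * u s1 a)) =
        -(eval (fun s => eval p (Ψ s)) (pderiv s1.1 F) * t' s1.1) := by
      intro s1
      have h2 := congrArg (eval p) (hu2 s1)
      rw [map_mul, map_neg, map_mul, hev (pderiv s1.1 F)] at h2
      have h3 := hp3 s1
      calc _ = t' s1.1 / eval p (δ s1) * (eval p f0 * eval p (∑ a, pderiv a (Ψ s) * u s1 a)) := by
            ring
        _ = _ := by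
            rw [h2]
            field_simp
    rw [Finset.sum_congr rfl fun s1 _ => h1 s1, Finset.sum_neg_distrib]
    rw [← Finset.add_sum_erase _ _ (Finset.mem_univ s)] at ht'
    have h4 : ∑ x ∈ Finset.univ.erase s, eval (fun s => eval p (Ψ s)) (pderiv x F) * t' x =
        ∑ s1 : {s' : σ // s' ≠ s}, eval (fun s => eval p (Ψ s)) (pderiv s1.1 F) * t' s1.1 := by
      rw [← Finset.sum_subtype (Finset.univ.erase s) (p := fun x => x ≠ s)
        (fun x => by simp) (fun x => eval (fun s => eval p (Ψ s)) (pderiv x F) * t' x)]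
    rw [h4] at ht'
    rw [hf0, hev]
    linear_combination -ht'
  · rw [Finset.sum_eq_single ⟨s, hs⟩]
    · rw [hu1 ⟨s, hs⟩ s hs, if_pos rfl]
      have := hp3 ⟨s, hs⟩
      field_simp
    · intro s1 _ hne
      rw [hu1 s1 s hs, if_neg (fun h => hne (Subtype.ext h.symm)), map_zero, mul_zero]
    · intro hn
      exact absurd (Finset.mem_univ _) hn

end Pool.Agent.Q151.ST
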