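import Pool.Agent.Q35.ST.Stm2

/-! Job M3 of project ST of helper35. -/

set_option autoImplicit false

namespace Pool.Agent.Q151.ST

open MvPolynomial Pool.Agent.Q35.ST

/-! ### differentiation along lines -/

theorem eval_aeval' {σ τ k : Type} [Field k] (p : τ → k) (Ψ : σ → MvPolynomial τ k)
    (G : MvPolynomial σ k) : eval p (aeval Ψ G) = eval (fun s => eval p (Ψ s)) G := by
  have h1 := MvPolynomial.map_aeval Ψ (eval p) G
  rw [h1]
  have h2 : (eval p).comp (algebraMap k (MvPolynomial τ k)) = RingHom.id k := by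
    ext r
    exact eval_C r
  rw [h2]
  rfl

section lin

variable {σ k : Type} [Fintype σ] [Field k] [CharZero k]

theorem lin_vanish (g : MvPolynomial σ k) (a b : σ → k)
    (h : ∀ c : k, eval (fun s => a s + c * b s) g = 0) :
    ∑ s, eval a (pderiv s g) * b s = 0 := by
  set f : Polynomial k :=
    aeval (fun s => Polynomial.C (a s) + Polynomial.X * Polynomial.C (b s)) g with hfdef
  have hf : f = 0 := by
    apply Polynomial.funext
    intro c
    rw [Polynomial.eval_zero, ← h c]
    have h1 := MvPolynomial.map_aeval (fun s => Polynomial.C (a s) + Polynomial.X *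
      Polynomial.C (b s)) (Polynomial.evalRingHom c) g
    rw [hfdef]
    show Polynomial.evalRingHom c _ = _
    rw [h1]
    have h2 : (Polynomial.evalRingHom c).comp (algebraMap k (Polynomial k)) = RingHom.id k := by
      ext r
      simp
    rw [h2]
    show eval₂ _ _ g = eval₂ _ _ g
    congr 1
    funext s
    simp only [map_add, map_mul, Polynomial.coe_evalRingHom, Polynomial.eval_C, Polynomial.eval_X]
  let Q : σ → DualNumber k := fun s => TrivSqZeroExt.inl (a s) + TrivSqZeroExt.inr (b s)
  have h1 := (Pool.Agent.TH178.MZ.taylor Q g).2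
  have h2 : aeval Q g = Polynomial.aeval (TrivSqZeroExt.inr (1 : k) : DualNumber k) f := by
    rw [hfdef, ← AlgHom.comp_apply]
    congr 1
    apply algHom_ext
    intro s
    rw [AlgHom.comp_apply, aeval_X, aeval_X, map_add, map_mul, Polynomial.aeval_C,
      Polynomial.aeval_C, Polynomial.aeval_X]
    show TrivSqZeroExt.inl (a s) + TrivSqZeroExt.inr (b s) =
      (TrivSqZeroExt.inl (a s) : DualNumber k) + TrivSqZeroExt.inr 1 * TrivSqZeroExt.inl (b s)
    rw [TrivSqZeroExt.inr_mul_inl]
    simp
  rw [h2, hf, map_zero] at h1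
  have h3 : (fun l => (Q l).fst) = a := by
    funext s
    simp [Q]
  have h4 : ∀ s, (Q s).snd = b s := by
    intro s
    simp [Q]
  rw [h3] at h1
  simp only [h4] at h1
  exact h1.symm

end lin

/-! ### polynomial functions -/

section pol

variable {V k : Type} [Field k]

/-- polynomial functions -/
def Pol (f : (V → k) → k) : Prop := ∃ G : MvPolynomial V k, ∀ ω, f ω = eval ω G

theorem Pol.const (c : k) : Pol (fun _ : V → k => c) := ⟨C c, fun ω => (eval_C c).symm⟩

theorem Pol.coord (v : V) : Pol (fun ω : V → k => ω v) := ⟨X v, fun ω => (eval_X v).symm⟩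

theorem Pol.mul {f g : (V → k) → k} (hf : Pol f) (hg : Pol g) : Pol (fun ω => f ω * g ω) := by
  obtain ⟨F, hF⟩ := hf
  obtain ⟨G, hG⟩ := hg
  exact ⟨F * G, fun ω => by
    show f ω * g ω = _
    rw [map_mul, hF, hG]⟩

theorem Pol.sub {f g : (V → k) → k} (hf : Pol f) (hg : Pol g) : Pol (fun ω => f ω - g ω) := by
  obtain ⟨F, hF⟩ := hf
  obtain ⟨G, hG⟩ := hg
  exact ⟨F - G, fun ω => by
    show f ω - g ω = _
    rw [map_sub, hF, hG]⟩

theorem Pol.sum {ι : Type} (s : Finset ι) {f : ι → (V → k) → k} (hf : ∀ i, Pol (f i)) :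
    Pol (fun ω => ∑ i ∈ s, f i ω) := by
  choose F hF using hf
  exact ⟨∑ i ∈ s, F i, fun ω => by rw [map_sum]; exact Finset.sum_congr rfl fun i _ => hF i ω⟩

theorem Pol.comp {S : Type} {z : (V → k) → S → k} (hz : ∀ s, Pol (fun ω => z ω s))
    (g : MvPolynomial S k) : Pol (fun ω => eval (z ω) g) := by
  choose G hG using hz
  refine ⟨aeval G g, fun ω => ?_⟩
  show eval (z ω) g = _
  rw [eval_aeval']
  have h : z ω = fun s => eval ω (G s) := funext fun s => hG s ω
  rw [h]

theorem Pol.dom [CharZero k] {f g : (V → k) → k} (hf : Pol f) (hg : Pol g)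
    (h : ∀ ω, f ω * g ω = 0) : (∀ ω, f ω = 0) ∨ (∀ ω, g ω = 0) := by
  obtain ⟨F, hF⟩ := hf
  obtain ⟨G, hG⟩ := hg
  have h1 : F * G = 0 := by
    apply MvPolynomial.funext
    intro ω
    rw [map_mul, ← hF, ← hG, h, map_zero]
  rcases mul_eq_zero.mp h1 with h2 | h2
  · left
    intro ω
    rw [hF, h2, map_zero]
  · right
    intro ω
    rw [hG, h2, map_zero]

end pol

/-! ### points -/

section pts

variable {κ : Type} [DecidableEq κ] {n : κ → ℕ} {k : Type} [Field k]

theorem upd_same (z : Pc n → k) (l : κ) (y : Fin (n l + 1) → k) (i : Fin (n l + 1)) :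
    upd z l y ⟨l, i⟩ = y i := by
  unfold upd
  rw [Function.update_self]

theorem upd_ne (z : Pc n → k) (l : κ) (y : Fin (n l + 1) → k) {s : Pc n} (h : s.1 ≠ l) :
    upd z l y s = z s := by
  unfold upd
  rw [Function.update_of_ne h]

theorem upd_ext {z z' : Pc n → k} (l : κ) (h1 : ∀ s : Pc n, s.1 ≠ l → z s = z' s)
    (h2 : ∀ i, z ⟨l, i⟩ = z' ⟨l, i⟩) : z = z' := by
  funext s
  obtain ⟨j, i⟩ := s
  by_cases h : j = l
  · subst h
    exact h2 i
  · exact h1 _ h

/-- a vector valued polynomial function -/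
def PolV {V : Type} (z : (V → k) → Pc n → k) : Prop := ∀ s, Pol (fun ω => z ω s)

theorem PolV.upd {V : Type} {z : (V → k) → Pc n → k} (hz : PolV z) (l : κ)
    {y : (V → k) → Fin (n l + 1) → k} (hy : ∀ i, Pol (fun ω => y ω i)) :
    PolV (fun ω => upd (z ω) l (y ω)) := by
  intro s
  obtain ⟨j, i⟩ := s
  by_cases h : j = l
  · subst h
    simp only [upd_same]
    exact hy i
  · have : (fun ω => Pool.Agent.Q35.ST.upd (z ω) l (y ω) ⟨j, i⟩) = fun ω => z ω ⟨j, i⟩ := by
      funext ω
      exact upd_ne _ _ _ h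
    rw [this]
    exact hz _

variable (F : MvPolynomial (Pc n) k)

theorem qf_eq (l : κ) (z w : Pc n → k) : qf F l z w = eval (upd z l (fun i => w ⟨l, i⟩)) F := rfl

theorem bf_eq (l : κ) (z w : Pc n → k) : bf F l z w =
    ∑ i, w ⟨l, i⟩ * eval z (pderiv ⟨l, i⟩ F) := rfl

theorem mv_same (l : κ) (z w : Pc n → k) (i : Fin (n l + 1)) : mv F l z w ⟨l, i⟩ =
    qf F l z w * z ⟨l, i⟩ - bf F l z w * w ⟨l, i⟩ := by
  unfold mv
  rw [upd_same]

theorem mv_ne (l : κ) (z w : Pc n → k) {s : Pc n} (h : s.1 ≠ l) : mv F l z w s = z s := by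
  unfold mv
  rw [upd_ne _ _ _ h]

theorem Pol.qf {V : Type} {z w : (V → k) → Pc n → k} (hz : PolV z) (hw : PolV w) (l : κ) :
    Pol (fun ω => qf F l (z ω) (w ω)) := by
  simp only [qf_eq]
  exact Pol.comp (hz.upd l (fun i => hw ⟨l, i⟩)) F

theorem PolV.mv {V : Type} {z w : (V → k) → Pc n → k} (hz : PolV z) (hw : PolV w) (l : κ) :
    PolV (fun ω => mv F l (z ω) (w ω)) := by
  unfold Pool.Agent.Q35.ST.mv
  refine hz.upd l fun i => ?_
  refine Pol.sub ((Pol.qf F hz hw l).mul (hz _)) (Pol.mul ?_ (hw _))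
  simp only [bf_eq]
  exact Pol.sum _ fun i => (hw _).mul (Pol.comp hz _)

theorem PolV.mvl {V : Type} (s : List κ) : ∀ {z : (V → k) → Pc n → k}
    {p : (V → k) → ℕ → Pc n → k}, PolV z → (∀ j, PolV (fun ω => p ω j)) →
    PolV (fun ω => mvl F s (z ω) (p ω)) := by
  induction s with
  | nil =>
    intro z p hz _
    exact hz
  | cons l s ih =>
    intro z p hz hp
    exact ih (z := fun ω => Pool.Agent.Q35.ST.mv F l (Pool.Agent.Q35.ST.mv F l (z ω) (p ω 0)) (p ω 1))
      (p := fun ω j => p ω (j + 2)) ((hz.mv F (hp 0) l).mv F (hp 1) l) (fun j => hp (j + 2))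

theorem Pol.ndp {V : Type} (s : List κ) : ∀ {z : (V → k) → Pc n → k}
    {p : (V → k) → ℕ → Pc n → k}, PolV z → (∀ j, PolV (fun ω => p ω j)) →
    Pol (fun ω => ndp F s (z ω) (p ω)) := by
  induction s with
  | nil =>
    intro z p hz _
    exact Pol.const 1
  | cons l s ih =>
    intro z p hz hp
    exact ((Pol.qf F hz (hp 0) l).mul (Pol.qf F hz (hp 1) l)).mul
      (ih (z := fun ω => Pool.Agent.Q35.ST.mv F l (Pool.Agent.Q35.ST.mv F l (z ω) (p ω 0)) (p ω 1))
        (p := fun ω j => p ω (j + 2)) ((hz.mv F (hp 0) l).mv F (hp 1) l) (fun j => hp (j + 2)))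

/-! ### lists -/

theorem mvl_append (s r : List κ) : ∀ (z : Pc n → k) (p : ℕ → Pc n → k),
    mvl F (s ++ r) z p = mvl F r (mvl F s z p) (fun j => p (j + 2 * s.length)) := by
  induction s with
  | nil => intro z p; rfl
  | cons l s ih =>
    intro z p
    show mvl F (s ++ r) (mv F l (mv F l z (p 0)) (p 1)) (fun j => p (j + 2)) = _
    rw [ih]
    show mvl F r (mvl F s _ _) _ = mvl F r (mvl F s _ _) _
    congr 1

theorem ndp_append (s r : List κ) : ∀ (z : Pc n → k) (p : ℕ → Pc n → k),
    ndp F (s ++ r) z p = ndp F s z p * ndp F r (mvl F s z p) (fun j => p (j + 2 * s.length)) := by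
  induction s with
  | nil =>
    intro z p
    show ndp F r z p = 1 * ndp F r z p
    rw [one_mul]
  | cons l s ih =>
    intro z p
    show qf F l z (p 0) * qf F l z (p 1) *
      ndp F (s ++ r) (mv F l (mv F l z (p 0)) (p 1)) (fun j => p (j + 2)) = _
    rw [ih, ← mul_assoc]
    show _ = qf F l z (p 0) * qf F l z (p 1) *
      ndp F s (mv F l (mv F l z (p 0)) (p 1)) (fun j => p (j + 2)) * ndp F r _ _
    congr 2

theorem mvl_congr (s : List κ) : ∀ (z : Pc n → k) (p p' : ℕ → Pc n → k),
    (∀ j < 2 * s.length, p j = p' j) → mvl F s z p = mvl F s z p' := by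
  induction s with
  | nil => intro z p p' _; rfl
  | cons l s ih =>
    intro z p p' h
    rw [List.length_cons] at h
    show mvl F s _ _ = mvl F s _ _
    rw [h 0 (by omega), h 1 (by omega)]
    exact ih _ _ _ fun j hj => h (j + 2) (by omega)

theorem ndp_congr (s : List κ) : ∀ (z : Pc n → k) (p p' : ℕ → Pc n → k),
    (∀ j < 2 * s.length, p j = p' j) → ndp F s z p = ndp F s z p' := by
  induction s with
  | nil => intro z p p' _; rfl
  | cons l s ih =>
    intro z p p' h
    rw [List.length_cons] at h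
    show qf F l z (p 0) * qf F l z (p 1) * ndp F s _ _ = qf F l z (p' 0) * qf F l z (p' 1) * ndp F s _ _
    rw [h 0 (by omega), h 1 (by omega), ih _ _ _ fun j hj => h (j + 2) (by omega)]

theorem mvl_snoc (s : List κ) (l : κ) (z : Pc n → k) (p : ℕ → Pc n → k) :
    mvl F (s ++ [l]) z p =
      mv F l (mv F l (mvl F s z p) (p (2 * s.length))) (p (2 * s.length + 1)) := by
  rw [mvl_append]
  show mv F l (mv F l (mvl F s z p) (p (0 + 2 * s.length))) (p (1 + 2 * s.length)) = _
  rw [Nat.zero_add, Nat.add_comm 1]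

theorem ndp_snoc (s : List κ) (l : κ) (z : Pc n → k) (p : ℕ → Pc n → k) :
    ndp F (s ++ [l]) z p = ndp F s z p * (qf F l (mvl F s z p) (p (2 * s.length)) *
      qf F l (mvl F s z p) (p (2 * s.length + 1))) := by
  rw [ndp_append]
  show ndp F s z p * (qf F l (mvl F s z p) (p (0 + 2 * s.length)) *
    qf F l (mvl F s z p) (p (1 + 2 * s.length)) * 1) = _
  rw [Nat.zero_add, Nat.add_comm 1, mul_one]

/-- prescribing two parameters -/
def setp (p : ℕ → Pc n → k) (N : ℕ) (a b : Pc n → k) : ℕ → Pc n → k :=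
  fun j => if j = N then a else if j = N + 1 then b else p j

theorem setp_lt (p : ℕ → Pc n → k) (N : ℕ) (a b : Pc n → k) {j : ℕ} (h : j < N) :
    setp p N a b j = p j := by
  unfold setp
  rw [if_neg (by omega), if_neg (by omega)]

theorem setp_0 (p : ℕ → Pc n → k) (N : ℕ) (a b : Pc n → k) : setp p N a b N = a := by
  unfold setp
  rw [if_pos rfl]

theorem setp_1 (p : ℕ → Pc n → k) (N : ℕ) (a b : Pc n → k) : setp p N a b (N + 1) = b := by
  unfold setp
  rw [if_neg (by omega), if_pos rfl]

theorem mvl_setp (s : List κ) (l : κ) (z : Pc n → k) (p : ℕ → Pc n → k) (a b : Pc n → k) :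
    mvl F (s ++ [l]) z (setp p (2 * s.length) a b) = mv F l (mv F l (mvl F s z p) a) b := by
  rw [mvl_snoc, setp_0, setp_1, mvl_congr F s z _ p fun j hj => setp_lt p _ a b hj]

theorem ndp_setp (s : List κ) (l : κ) (z : Pc n → k) (p : ℕ → Pc n → k) (a b : Pc n → k) :
    ndp F (s ++ [l]) z (setp p (2 * s.length) a b) =
      ndp F s z p * (qf F l (mvl F s z p) a * qf F l (mvl F s z p) b) := by
  rw [ndp_snoc, setp_0, setp_1, mvl_congr F s z _ p fun j hj => setp_lt p _ a b hj,
    ndp_congr F s z _ p fun j hj => setp_lt p _ a b hj]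

end pts

/-! ### moves -/

section moves

variable {κ : Type} [Fintype κ] [DecidableEq κ] {n : κ → ℕ} {k : Type} [Field k]
  (F : MvPolynomial (Pc n) k) (hF : MH Set.univ (fun _ => 2) F) (m1 : S_M1)

include hF m1 in
theorem stay {l : κ} {y w : Pc n → k} (h : qf F l y w ≠ 0) :
    mv F l (mv F l y w) (fun s => (qf F l y w)⁻¹ * w s) = y := by
  obtain ⟨-, -, h3, -⟩ := m1 κ n k k F hF l y w
  obtain ⟨-, -, -, h4, -⟩ := m1 κ n k k F hF l (mv F l y w) w
  rw [h4]
  apply upd_ext l
  · intro s hs
    rw [upd_ne _ _ _ hs, mv_ne F l y w hs]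
  · intro i
    rw [upd_same, h3, upd_same]
    field_simp

include hF m1 in
theorem back {l : κ} {y a b : Pc n → k} (ha : qf F l y a ≠ 0) (hb : qf F l y b ≠ 0) :
    mv F l (mv F l (mv F l (mv F l y a) b) (fun s => (qf F l y b)⁻¹ * b s))
      (fun s => (qf F l y a)⁻¹ * a s) = y := by
  obtain ⟨h1, -⟩ := m1 κ n k k F hF l y a
  have h2 : qf F l (mv F l y a) b = qf F l y b := h1 b
  have h3 := stay F hF m1 (l := l) (y := mv F l y a) (w := b) (by rw [h2]; exact hb)
  rw [h2] at h3
  rw [h3]
  exact stay F hF m1 ha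

include hF m1 in
theorem mvl_zero (s : List κ) : ∀ (z : Pc n → k) (p : ℕ → Pc n → k), eval z F = 0 →
    eval (mvl F s z p) F = 0 := by
  induction s with
  | nil => intro z p h; exact h
  | cons l s ih =>
    intro z p h
    apply ih
    obtain ⟨-, h2, -⟩ := m1 κ n k k F hF l z (p 0)
    obtain ⟨-, h3, -⟩ := m1 κ n k k F hF l (mv F l z (p 0)) (p 1)
    have h2' : eval (mv F l z (p 0)) F = qf F l z (p 0) ^ 2 * eval z F := h2
    have h3' : eval (mv F l (mv F l z (p 0)) (p 1)) F =
      qf F l (mv F l z (p 0)) (p 1) ^ 2 * eval (mv F l z (p 0)) F := h3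
    rw [h3', h2', h, mul_zero, mul_zero]

include hF m1 in
/-- the return -/
theorem return_mvl (s : List κ) : ∀ (z : Pc n → k) (p : ℕ → Pc n → k), ndp F s z p ≠ 0 →
    ∃ p' : ℕ → Pc n → k, mvl F s.reverse (mvl F s z p) p' = z := by
  induction s with
  | nil => intro z p _; exact ⟨p, rfl⟩
  | cons l s ih =>
    intro z p h
    have h' : qf F l z (p 0) * qf F l z (p 1) *
      ndp F s (mv F l (mv F l z (p 0)) (p 1)) (fun j => p (j + 2)) ≠ 0 := h
    obtain ⟨p', hp'⟩ := ih _ _ (right_ne_zero_of_mul h')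
    have ha := left_ne_zero_of_mul (left_ne_zero_of_mul h')
    have hb := right_ne_zero_of_mul (left_ne_zero_of_mul h')
    refine ⟨setp p' (2 * s.reverse.length) (fun s => (qf F l z (p 1))⁻¹ * p 1 s)
      (fun s => (qf F l z (p 0))⁻¹ * p 0 s), ?_⟩
    rw [List.reverse_cons, mvl_setp]
    have h2 : mvl F s.reverse (mvl F (l :: s) z p) p' = mv F l (mv F l z (p 0)) (p 1) := hp'
    rw [h2]
    exact back F hF m1 ha hb

/-! ### scaling -/

/-- the factor of the quadratic form -/
def ta (t : κ → k) (l : κ) : k := ∏ j ∈ Finset.univ.erase l, t j ^ 2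

include hF in
theorem qf_sc (t : κ → k) (l : κ) (y w : Pc n → k) : qf F l (sc t y) w = ta t l * qf F l y w := by
  rw [qf_eq, qf_eq]
  have h1 : upd (sc t y) l (fun i => w ⟨l, i⟩) = fun s =>
      (Function.update t l 1) s.1 * upd y l (fun i => w ⟨l, i⟩) s := by
    apply upd_ext l
    · intro s hs
      rw [upd_ne _ _ _ hs, upd_ne _ _ _ hs, Function.update_of_ne hs]
      rfl
    · intro i
      rw [upd_same, upd_same, Function.update_self, one_mul]
  rw [h1, hF.eval_scale]
  congr 1
  unfold ta
  rw [← Finset.mul_prod_erase _ _ (Finset.mem_univ l), Function.update_self, one_pow, one_mul]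
  refine Finset.prod_congr rfl fun j hj => ?_
  rw [Function.update_of_ne (Finset.ne_of_mem_erase hj)]

include hF in
theorem pd_sc (t : κ → k) (l : κ) (y : Pc n → k) (i : Fin (n l + 1)) :
    eval (sc t y) (pderiv ⟨l, i⟩ F) = t l * ta t l * eval y (pderiv ⟨l, i⟩ F) := by
  have h1 := (hF.pderiv ⟨l, i⟩).eval_scale t y
  have h2 : eval (sc t y) (pderiv ⟨l, i⟩ F) = eval (fun s => t s.1 * y s) (pderiv ⟨l, i⟩ F) := rfl
  rw [h2, h1]
  congr 1
  unfold ta
  rw [← Finset.mul_prod_erase _ _ (Finset.mem_univ l)]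
  congr 1
  · simp
  · refine Finset.prod_congr rfl fun j hj => ?_
    simp [Finset.ne_of_mem_erase hj]

include hF in
theorem bf_sc (t : κ → k) (l : κ) (y w : Pc n → k) :
    bf F l (sc t y) w = t l * ta t l * bf F l y w := by
  rw [bf_eq, bf_eq, Finset.mul_sum]
  refine Finset.sum_congr rfl fun i _ => ?_
  rw [pd_sc F hF]
  ring

include hF in
theorem mv_sc (t : κ → k) (l : κ) (y w : Pc n → k) :
    mv F l (sc t y) w = sc (Function.update t l (t l * ta t l)) (mv F l y w) := by
  apply upd_ext l
  · intro s hs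
    rw [mv_ne _ _ _ _ hs]
    unfold sc
    rw [mv_ne _ _ _ _ hs, Function.update_of_ne hs]
  · intro i
    rw [mv_same, qf_sc F hF, bf_sc F hF]
    unfold sc
    rw [Function.update_self, mv_same]
    ring

end moves

/-! ### the ideals -/

section ideal

variable {κ : Type} [DecidableEq κ] {n : κ → ℕ} {k : Type} [Field k]
  (F : MvPolynomial (Pc n) k) (T : Pc n → k)

/-- the ideal of the points reached by the moves -/
def PI (s : List κ) : Ideal (MvPolynomial (Pc n) k) where
  carrier := {g | ∀ (t : κ → k) (p : ℕ → Pc n → k), eval (sc t (mvl F s T p)) g = 0}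
  zero_mem' := fun t p => map_zero _
  add_mem' := by
    intro a b ha hb t p
    rw [map_add, ha t p, hb t p, add_zero]
  smul_mem' := by
    intro c a ha t p
    rw [smul_eq_mul, map_mul, ha t p, mul_zero]

theorem mem_PI {s : List κ} {g : MvPolynomial (Pc n) k} : g ∈ PI F T s ↔
    ∀ (t : κ → k) (p : ℕ → Pc n → k), eval (sc t (mvl F s T p)) g = 0 := Iff.rfl

/-- the variables -/
abbrev Vr {κ : Type} (n : κ → ℕ) := κ ⊕ (ℕ × Pc n)

/-- the scaling parameters -/
def tt (ω : Vr n → k) : κ → k := fun l => ω (Sum.inl l)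
/-- the parameters of the moves -/
def pp (ω : Vr n → k) : ℕ → Pc n → k := fun j s => ω (Sum.inr (j, s))
/-- the point of given parameters -/
def mk (t : κ → k) (p : ℕ → Pc n → k) : Vr n → k := Sum.elim t (fun q => p q.1 q.2)

omit [DecidableEq κ] in
theorem tt_mk (t : κ → k) (p : ℕ → Pc n → k) : tt (mk t p) = t := rfl
omit [DecidableEq κ] in
theorem pp_mk (t : κ → k) (p : ℕ → Pc n → k) : pp (mk t p) = p := rfl

theorem polV_pt (s : List κ) : PolV (fun ω : Vr n → k => mvl F s T (pp ω)) :=
  PolV.mvl F s (z := fun _ => T) (p := pp) (fun s => Pol.const (T s)) fun j s => Pol.coord _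

theorem polV_scpt (s : List κ) : PolV (fun ω : Vr n → k => sc (tt ω) (mvl F s T (pp ω))) :=
  fun i => (Pol.coord _).mul (polV_pt F T s i)

theorem pol_gen (s : List κ) (g : MvPolynomial (Pc n) k) :
    Pol (fun ω : Vr n → k => eval (sc (tt ω) (mvl F s T (pp ω))) g) :=
  Pol.comp (polV_scpt F T s) g

theorem PI_prime [CharZero k] (s : List κ) : (PI F T s).IsPrime := by
  refine ⟨?_, ?_⟩
  · rw [Ideal.ne_top_iff_one]
    intro h
    have := h 0 0
    rw [map_one] at this
    exact one_ne_zero this
  · intro a b hab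
    rcases Pol.dom (pol_gen F T s a) (pol_gen F T s b) (fun ω => by
      rw [← map_mul]; exact hab (tt ω) (pp ω)) with h | h
    · left
      intro t p
      exact h (mk t p)
    · right
      intro t p
      exact h (mk t p)

/-- admissible lists -/
def Adm (s : List κ) : Prop := ∃ p : ℕ → Pc n → k, ndp F s T p ≠ 0

/-- available directions -/
def Av (s : List κ) (l : κ) : Prop := ∃ (p : ℕ → Pc n → k) (w : Pc n → k), qf F l (mvl F s T p) w ≠ 0

theorem pol_ndpt (s : List κ) : Pol (fun ω : Vr n → k => ndp F s T (pp ω)) :=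
  Pol.ndp F s (z := fun _ => T) (p := pp) (fun s => Pol.const (T s)) fun j s => Pol.coord _

theorem pol_qft (s : List κ) (l : κ) (w : Pc n → k) :
    Pol (fun ω : Vr n → k => qf F l (mvl F s T (pp ω)) w) :=
  Pol.qf F (polV_pt F T s) (w := fun _ => w) (fun s => Pol.const (w s)) l

variable {F T}

theorem adm_snoc [CharZero k] {s : List κ} {l : κ} (hs : Adm F T s) (hl : Av F T s l) :
    Adm F T (s ++ [l]) := by
  obtain ⟨p0, hp0⟩ := hs
  obtain ⟨p1, w, hp1⟩ := hl
  obtain ⟨p, h1, h2⟩ : ∃ p : ℕ → Pc n → k, ndp F s T p ≠ 0 ∧ qf F l (mvl F s T p) w ≠ 0 := by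
    by_contra hc
    push Not at hc
    rcases Pol.dom (pol_ndpt F T s) (pol_qft F T s l w) (fun ω => by
      show ndp F s T (pp ω) * qf F l (mvl F s T (pp ω)) w = 0
      by_cases h : ndp F s T (pp ω) = 0
      · rw [h, zero_mul]
      · rw [hc _ h, mul_zero]) with h | h
    · exact hp0 (h (mk 0 p0))
    · exact hp1 (h (mk 0 p1))
  refine ⟨setp p (2 * s.length) w w, ?_⟩
  rw [ndp_setp]
  exact mul_ne_zero h1 (mul_ne_zero h2 h2)

end ideal

section main

variable {κ : Type} [Fintype κ] [DecidableEq κ] {n : κ → ℕ} {k : Type} [Field k] [CharZero k]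
  {F : MvPolynomial (Pc n) k} (hF : MH Set.univ (fun _ => 2) F) (m1 : S_M1) {T : Pc n → k}

include hF m1 in
theorem PI_snoc_le {s : List κ} {l : κ} (hl : Av F T s l) : PI F T (s ++ [l]) ≤ PI F T s := by
  intro g hg
  obtain ⟨p1, w, hp1⟩ := hl
  have key : ∀ ω : Vr n → k, eval (sc (tt ω) (mvl F s T (pp ω))) g * qf F l (mvl F s T (pp ω)) w = 0 := by
    intro ω
    by_cases h : qf F l (mvl F s T (pp ω)) w = 0
    · rw [h, mul_zero]
    · have h1 := hg (tt ω) (setp (pp ω) (2 * s.length) w
        (fun i => (qf F l (mvl F s T (pp ω)) w)⁻¹ * w i))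
      rw [mvl_setp, stay F hF m1 h] at h1
      rw [h1, zero_mul]
  rcases Pol.dom (pol_gen F T s g) (pol_qft F T s l w) key with h | h
  · intro t p
    exact h (mk t p)
  · exact absurd (h (mk 0 p1)) hp1

include hF m1 in
theorem av_of_mem (s : List κ) : Adm F T s → ∀ l ∈ s, Av F T s l := by
  induction s using List.reverseRecOn with
  | nil => intro _ l hl; exact absurd hl (List.not_mem_nil)
  | append_singleton s m ih =>
    intro hs l hl
    obtain ⟨p, hp⟩ := hs
    rw [ndp_snoc] at hp
    have hs' : Adm F T s := ⟨p, left_ne_zero_of_mul hp⟩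
    have hm : qf F m (mvl F s T p) (p (2 * s.length)) ≠ 0 :=
      left_ne_zero_of_mul (right_ne_zero_of_mul hp)
    rw [List.mem_append, List.mem_singleton] at hl
    rcases hl with hl | rfl
    · obtain ⟨p0, w0, h0⟩ := ih hs' l hl
      obtain ⟨q, h1, h2⟩ : ∃ q : ℕ → Pc n → k, qf F l (mvl F s T q) w0 ≠ 0 ∧
          qf F m (mvl F s T q) (p (2 * s.length)) ≠ 0 := by
        by_contra hc
        push Not at hc
        rcases Pol.dom (pol_qft F T s l w0) (pol_qft F T s m (p (2 * s.length))) (fun ω => by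
          by_cases h : qf F l (mvl F s T (pp ω)) w0 = 0
          · rw [h, zero_mul]
          · rw [hc _ h, mul_zero]) with h | h
        · exact h0 (h (mk 0 p0))
        · exact hm (h (mk 0 p))
      refine ⟨setp q (2 * s.length) (p (2 * s.length))
        (fun i => (qf F m (mvl F s T q) (p (2 * s.length)))⁻¹ * p (2 * s.length) i), w0, ?_⟩
      rw [mvl_setp, stay F hF m1 h2]
      exact h1
    · refine ⟨p, p (2 * s.length), ?_⟩
      rw [mvl_snoc]
      obtain ⟨e1, -⟩ := m1 κ n k k F hF l (mvl F s T p) (p (2 * s.length))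
      obtain ⟨e2, -⟩ := m1 κ n k k F hF l (mv F l (mvl F s T p) (p (2 * s.length)))
        (p (2 * s.length + 1))
      have e3 := e2 (p (2 * s.length))
      have e4 := e1 (p (2 * s.length))
      rw [e3, e4]
      exact hm

include hF m1 in
theorem append_mem {s : List κ} (hs : Adm F T s) (r : List κ) : (∀ l ∈ r, l ∈ s) →
    Adm F T (s ++ r) ∧ PI F T (s ++ r) ≤ PI F T s := by
  induction r using List.reverseRecOn with
  | nil =>
    intro _
    rw [List.append_nil]
    exact ⟨hs, le_rfl⟩
  | append_singleton r l ih =>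
    intro h
    obtain ⟨h1, h2⟩ := ih fun j hj => h j (List.mem_append_left _ hj)
    have hl : l ∈ s := h l (List.mem_append_right _ (List.mem_singleton_self l))
    have h3 : Av F T (s ++ r) l := av_of_mem hF m1 (s ++ r) h1 l (List.mem_append_left _ hl)
    rw [← List.append_assoc]
    exact ⟨adm_snoc h1 h3, (PI_snoc_le hF m1 h3).trans h2⟩

theorem eval_sc_one (z : Pc n → k) : sc (fun _ => 1) z = z := by
  funext s
  exact one_mul _

end main

theorem m3 (m1 : S_M1) (m2 : S_M2) : S_M3 := by
  classical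
  intro κ _ _ n k _ _ F hF T hT
  -- minimal height
  obtain ⟨s, hs, hmin⟩ : ∃ s : List κ, Adm F T s ∧ ∀ s' : List κ, Adm F T s' →
      PI F T s' ≤ PI F T s → PI F T s' = PI F T s := by
    have h0 : Adm F T [] := ⟨0, one_ne_zero⟩
    obtain ⟨h, ⟨s, hs, hh⟩, hm⟩ := WellFounded.has_min (wellFounded_lt (α := ℕ∞))
      {h | ∃ s : List κ, Adm F T s ∧ (PI F T s).height = h} ⟨_, [], h0, rfl⟩
    refine ⟨s, hs, fun s' hs' hle => ?_⟩
    by_contra hne
    have hlt : PI F T s' < PI F T s := lt_of_le_of_ne hle hne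
    have p1 := PI_prime F T s
    have p2 := PI_prime F T s'
    have := Ideal.height_strict_mono_of_isPrime_of_isPrime hlt
    rw [hh] at this
    exact hm _ ⟨s', hs', rfl⟩ this
  refine ⟨s, PI F T s, PI_prime F T s, ?_, ?_, ?_, ?_, hs, fun g hg => hg⟩
  · intro t p
    have h1 := hF.eval_scale t (mvl F s T p)
    have h2 : eval (sc t (mvl F s T p)) F = eval (fun i => t i.1 * mvl F s T p i) F := rfl
    rw [h2, h1, mvl_zero F hF m1 s T p hT, mul_zero]
  · -- the tangential vector fields
    intro l i j g hg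
    by_cases hl : Av F T s l
    · have hadm := adm_snoc hs hl
      have heq := hmin _ hadm (PI_snoc_le hF m1 hl)
      obtain ⟨p0, w0, h0⟩ := hl
      have key : ∀ ω : Vr n → k, eval (sc (tt ω) (mvl F s T (pp ω)))
          (pderiv ⟨l, i⟩ F * pderiv ⟨l, j⟩ g - pderiv ⟨l, j⟩ F * pderiv ⟨l, i⟩ g) *
          qf F l (sc (tt ω) (mvl F s T (pp ω))) w0 = 0 := by
        intro ω
        by_cases h : qf F l (sc (tt ω) (mvl F s T (pp ω))) w0 = 0
        · rw [h, mul_zero]
        · have h1 := (m2 κ n k F hF l (sc (tt ω) (mvl F s T (pp ω))) ⟨w0, h⟩ g ?_).1 i j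
          · rw [h1, zero_mul]
          · intro w w'
            rw [mv_sc F hF, mv_sc F hF]
            rw [← heq] at hg
            have h2 := hg (Function.update (Function.update (tt ω) l (tt ω l * ta (tt ω) l)) l
              (Function.update (tt ω) l (tt ω l * ta (tt ω) l) l *
                ta (Function.update (tt ω) l (tt ω l * ta (tt ω) l)) l))
              (setp (pp ω) (2 * s.length) w w')
            rw [mvl_setp] at h2
            exact h2
      have hpol : Pol (fun ω : Vr n → k => qf F l (sc (tt ω) (mvl F s T (pp ω))) w0) :=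
        Pol.qf F (polV_scpt F T s) (w := fun _ => w0) (fun s => Pol.const (w0 s)) l
      rcases Pol.dom (pol_gen F T s _) hpol key with h | h
      · intro t p
        exact h (mk t p)
      · exfalso
        have h1 := h (mk (fun _ => 1) p0)
        rw [tt_mk, pp_mk, eval_sc_one] at h1
        exact h0 h1
    · -- the direction is not available
      have hz : ∀ p w, qf F l (mvl F s T p) w = 0 := by
        intro p w
        by_contra hc
        exact hl ⟨p, w, hc⟩
      have hd : ∀ (t : κ → k) (p : ℕ → Pc n → k) (i : Fin (n l + 1)),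
          eval (sc t (mvl F s T p)) (pderiv ⟨l, i⟩ F) = 0 := by
        intro t p i
        rw [pd_sc F hF]
        have h1 := lin_vanish F (mvl F s T p) (Pi.single ⟨l, i⟩ 1) (fun c => by
          have h2 := hz p (fun s' => mvl F s T p s' + c * (Pi.single ⟨l, i⟩ 1 : Pc n → k) s')
          rw [qf_eq] at h2
          have h3 : upd (mvl F s T p) l (fun i' => mvl F s T p ⟨l, i'⟩ +
              c * (Pi.single ⟨l, i⟩ 1 : Pc n → k) ⟨l, i'⟩) =
              fun s' => mvl F s T p s' + c * (Pi.single ⟨l, i⟩ 1 : Pc n → k) s' := by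
            apply upd_ext l
            · intro s' hs'
              rw [upd_ne _ _ _ hs', Pi.single_eq_of_ne, mul_zero, add_zero]
              rintro rfl
              exact hs' rfl
            · intro i'
              rw [upd_same]
          rw [h3] at h2
          exact h2)
        rw [Finset.sum_eq_single (⟨l, i⟩ : Pc n)] at h1
        · rw [Pi.single_eq_same, mul_one] at h1
          rw [h1, mul_zero]
        · intro b _ hb
          rw [Pi.single_eq_of_ne hb, mul_zero]
        · intro hn
          exact absurd (Finset.mem_univ _) hn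
      intro t p
      rw [map_sub, map_mul, map_mul, hd, hd, zero_mul, zero_mul, sub_zero]
  · -- the Euler vector fields
    intro l g hg t p
    have h1 := lin_vanish g (sc t (mvl F s T p))
      (fun s' => if s'.1 = l then sc t (mvl F s T p) s' else 0) (fun c => by
        have h2 := hg (Function.update t l (t l + c * t l)) p
        have h3 : sc (Function.update t l (t l + c * t l)) (mvl F s T p) = fun s' =>
            sc t (mvl F s T p) s' + c * (if s'.1 = l then sc t (mvl F s T p) s' else 0) := by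
          apply upd_ext l
          · intro s' hs'
            rw [if_neg hs', mul_zero, add_zero]
            unfold sc
            rw [Function.update_of_ne hs']
          · intro i'
            rw [if_pos rfl]
            unfold sc
            rw [Function.update_self]
            ring
        rw [h3] at h2
        exact h2)
    rw [map_sum]
    rw [Fintype.sum_sigma] at h1
    rw [Finset.sum_eq_single l] at h1
    · rw [← h1]
      refine Finset.sum_congr rfl fun i _ => ?_
      rw [if_pos rfl, map_mul, eval_X]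
      ring
    · intro b _ hb
      refine Finset.sum_eq_zero fun i _ => ?_
      rw [if_neg hb, mul_zero]
    · intro hn
      exact absurd (Finset.mem_univ _) hn
  · -- the point `T`
    obtain ⟨h1, h2⟩ := append_mem hF m1 hs s.reverse (fun l hl => List.mem_reverse.mp hl)
    have heq := hmin _ h1 h2
    obtain ⟨p, hp⟩ := hs
    obtain ⟨p', hp'⟩ := return_mvl F hF m1 s T p hp
    intro g hg
    rw [← heq] at hg
    have h3 := hg (fun _ => 1) (fun j => if j < 2 * s.length then p j else p' (j - 2 * s.length))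
    rw [mvl_append, eval_sc_one] at h3
    have h4 : mvl F s T (fun j => if j < 2 * s.length then p j else p' (j - 2 * s.length)) =
        mvl F s T p := mvl_congr F s T _ _ fun j hj => if_pos hj
    have h5 : (fun j => (fun j => if j < 2 * s.length then p j else p' (j - 2 * s.length))
        (j + 2 * s.length)) = p' := by
      funext j
      simp only
      rw [if_neg (by omega), Nat.add_sub_cancel]
    rw [h4, h5, hp'] at h3
    exact h3

end Pool.Agent.Q151.ST
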